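import Pool.Agent.U372.SK.Main

/-!
# A spin Kostka polynomial which is not palindromic

For `ξ = (3,2)` and `μ = (2,1,1,1)` one has `K⁻_{ξμ}(t) = 8t + 12t² + 8t³ + 4t⁴`.

The definitions are in `Pool/Agent/U372/SK/Defs.lean`:

* `HL n μ`: the Hall-Littlewood polynomial `P_μ(x_1, …, x_n; t)`, an element of the field of
  rational functions in `t, x_1, …, x_n`, by Macdonald's formula (III.2.2);
* `Q n ξ`: the polynomial `Q_ξ(x_1, …, x_n)`, the sum over the marked shifted tableaux;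
* `IsSpinKostka n ξ K`: `ξ` is a strict partition of `n` and
  `Q_ξ(x_1, …, x_n) = ∑_{μ ⊢ n} K_μ(t) P_μ(x_1, …, x_n; t)`, with `K_μ ∈ ℤ[t]`;
* `IsPalindromic K`: `t^m K(1/t) = K(t)` in `ℤ[t, 1/t]` for some integer `m`.
-/

set_option autoImplicit false

namespace Pool.Agent.Results.MP_2c9e21_co.NotPalindromic

open Pool.Agent.U372.SK Polynomial

/-- (1) For every `n` and every strict partition `ξ` of `n` there is at most one family of
polynomials `K_μ ∈ ℤ[t]`, `μ ⊢ n`, with `Q_ξ = ∑_μ K_μ(t) P_μ(x;t)`. (2) For `ξ = (3,2)` there is one.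
(3) For it and `μ = (2,1,1,1)`, `K_μ = 8t + 12t² + 8t³ + 4t⁴`, and this polynomial is not
palindromic. -/
theorem result :
    (∀ (n : ℕ) (ξ : List ℕ) (K K' : Nat.Partition n → ℤ[X]),
      IsSpinKostka n ξ K → IsSpinKostka n ξ K' → K = K') ∧
    (∃ K : Nat.Partition 5 → ℤ[X], IsSpinKostka 5 [3, 2] K) ∧
    ∀ K : Nat.Partition 5 → ℤ[X], IsSpinKostka 5 [3, 2] K →
      ∀ μ : Nat.Partition 5, μ.parts = {2, 1, 1, 1} →
        K μ = 8 * X + 12 * X ^ 2 + 8 * X ^ 3 + 4 * X ^ 4 ∧ ¬ IsPalindromic (K μ) := by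
  refine ⟨fun n ξ K K' h h' => kostka_unique h h', ⟨K0, K0_spin⟩, fun K hK μ hμ => ?_⟩
  have h1 : K = K0 := kostka_unique hK K0_spin
  have h2 : μ = p2111 := Nat.Partition.ext hμ
  rw [h1, h2]
  refine ⟨?_, not_pal⟩
  unfold K0 p2111
  dsimp only
  rw [if_neg (by decide), if_neg (by decide), if_neg (by decide), if_pos rfl]

end Pool.Agent.Results.MP_2c9e21_co.NotPalindromic
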